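import Pool.Agent.Q250.AS.Vec

/-!
# MP_20b4cf_al, Q1: almost stabilisers of direct decompositions are maximal in `GL(V)`

Let `κ` be an infinite cardinal, `F` a field and `V = V₁ ⊕ ⋯ ⊕ Vₙ`, `n ≥ 2`, an `F`-vector space
decomposed into `n` subspaces of dimension `κ`. The set of all `g ∈ GL(V)` for which there is a
permutation `σ` of the indices with `Vᵢ g =_κ V_{iσ}` for all `i` is a subgroup of `GL(V)`, and it
is a maximal subgroup.
-/

set_option autoImplicit false

namespace Pool.Agent.Results.MP_20b4cf_al.AlmostStabilisersMaximal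

universe u v

/-- `A =_κ B`: the dimensions of `(A + B)/A` and `(A + B)/B` add up to less than `κ`. -/
def AlmostEq {F : Type u} [Field F] {V : Type v} [AddCommGroup V] [Module F V]
    (κ : Cardinal.{v}) (A B : Submodule F V) : Prop :=
  Module.rank F (↥(A ⊔ B) ⧸ A.submoduleOf (A ⊔ B)) +
    Module.rank F (↥(A ⊔ B) ⧸ B.submoduleOf (A ⊔ B)) < κ

/-- **Q1 of MP_20b4cf_al** (answer: yes), for every `n ≥ 2` (the question is about `n ≥ 3`):
the almost stabiliser of a decomposition of a `κ`-dimensional space into `n` subspaces of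
dimension `κ` is a maximal subgroup of `GL(V)`. -/
theorem result {F : Type u} [Field F] {V : Type v} [AddCommGroup V] [Module F V]
    (κ : Cardinal.{v}) (hκ : Cardinal.aleph0 ≤ κ) (n : ℕ) (hn : 2 ≤ n)
    (W : Fin n → Submodule F V) (hW : DirectSum.IsInternal W)
    (hdim : ∀ i, Module.rank F (W i) = κ) :
    ∃ M : Subgroup (V ≃ₗ[F] V),
      (∀ g : V ≃ₗ[F] V, g ∈ M ↔ ∃ σ : Equiv.Perm (Fin n), ∀ i,
        AlmostEq κ ((W i).map (g : V →ₗ[F] V)) (W (σ i))) ∧
      M ≠ ⊤ ∧ ∀ K : Subgroup (V ≃ₗ[F] V), ¬ (M < K ∧ K < ⊤) := by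
  obtain ⟨M, hM, hco⟩ := Q250.AS.main κ hκ n hn W hW hdim
  exact ⟨M, hM, hco.1, fun K hK => hK.2.ne (hco.2 K hK.1)⟩

end Pool.Agent.Results.MP_20b4cf_al.AlmostStabilisersMaximal
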